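import Mathlib
import Pool.Agent.Y166.GM.Xfacts

/-!
# The number of Manin components of the space of curves on `P(1,1,1,2)` is unbounded

`X = P(1,1,1,2)` is the cone over the Veronese surface; it is embedded by the sections of `O(2)`.
It is a `Q`-factorial terminal Fano threefold of Picard rank one with trivial unramified Brauer
group. The classes of the curves on `X` are the degrees `d` with respect to `O(2)`. The space of
the morphisms of degree `d` from the projective line to `X` has at least `⌊d / 2⌋` Manin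
components, and at most `⌊d / 2⌋ + 1`.
-/

set_option autoImplicit false

namespace Pool.Agent.Results.MP_ab22a4_ag.ManinDisproof

open Pool.Agent.Y166.GM

theorem result (k : Type) [Field k] [IsAlgClosed k] [CharZero k] :
    IsProjVar (Xcone k) ∧
    (∀ (x x' : Fin 3 → k) (y y' : k), x ≠ 0 ∨ y ≠ 0 →
      ((∃ p : PP k (Option (Fin 3 × Fin 3)), Rep p (ver x y) ∧ Rep p (ver x' y')) ↔
        ∃ t : k, t ≠ 0 ∧ x' = t • x ∧ y' = t ^ 2 * y)) ∧
    ∀ I : Invariants (Xcone k),
      (∀ d : ℕ, 1 ≤ d → ((d / 2 : ℕ) : ℕ∞) ≤ (maninComponents I d).encard ∧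
        (maninComponents I d).encard ≤ ((d / 2 + 1 : ℕ) : ℕ∞)) ∧
      ∀ N α : ℕ, ∃ β : ℕ, α ≤ β ∧ (maninComponents I β).encard ≠ (N : ℕ∞) := by
  refine ⟨Xcone_projVar, fun x x' y y' h => ver_orbit x x' y y' h, fun I => ⟨fun d hd => ?_, ?_⟩⟩
  · refine ⟨encard_manin I hd, ?_⟩
    rw [← encard_components (k := k) hd]
    exact Set.encard_le_encard fun M hM => hM.1
  · intro N α
    refine ⟨α + 2 * N + 2, by omega, ?_⟩
    intro h
    have h1 := encard_manin I (d := α + 2 * N + 2) (by omega)
    rw [h] at h1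
    have h2 : (α + 2 * N + 2) / 2 ≤ N := by exact_mod_cast h1
    omega

end Pool.Agent.Results.MP_ab22a4_ag.ManinDisproof
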